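import Mathlib
import Pool.Agent.Q252.IT.E

/-!
# Isosceles triples of Gaussian integers and the abc conjecture over the integers

The inequality of the abc conjecture over `ℤ[i]`, for the coprime triples `a + b = c` two of whose members have the
same absolute value (isosceles triangles), is equivalent to the abc conjecture over `ℤ`; it is enough to know it for
the triples `z⁴ - z̄⁴ = c`.  One may add the degenerate triangles (real ratios).  In particular the abc conjecture
over `ℤ` suffices for lower bounds for the imaginary parts of the powers of a Gaussian integer.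
-/

set_option autoImplicit false

namespace Pool.Agent.Results.MP_dc323a_nt.IsoscelesTriples

/-- the radical of a natural number: the product of the primes dividing `m` -/
def R (m : ℕ) : ℕ := ∏ p ∈ m.primeFactors, p

/-- the abc conjecture over the integers -/
def ABCInt : Prop :=
  ∀ ε : ℝ, 0 < ε → ∃ κ : ℝ, ∀ a b c : ℕ, 0 < a → 0 < b → Nat.Coprime a b → a + b = c →
    (c : ℝ) ≤ κ * (R (a * b * c) : ℝ) ^ (1 + ε)

/-- `max {|a|, |b|, |c|}` for the triple `a + b = c` -/
noncomputable def size (a b : GaussianInt) : ℝ :=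
  max ‖GaussianInt.toComplex a‖ (max ‖GaussianInt.toComplex b‖ ‖GaussianInt.toComplex (a + b)‖)

/-- `rad(n)`: the product of `|Q|` over the Gaussian primes `Q` dividing `n`, one from each class of associates,
namely the one with `Re Q > 0` and `Im Q ≥ 0` -/
noncomputable def rad (n : GaussianInt) : ℝ :=
  ∏ᶠ Q ∈ {Q : GaussianInt | Prime Q ∧ Q ∣ n ∧ (0 < Q.re ∧ 0 ≤ Q.im)}, ‖GaussianInt.toComplex Q‖

/-- the triples `a + b = c` of coprime Gaussian integers with `abc ≠ 0`, given by the pairs `(a, b)` -/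
def Triples : Set (GaussianInt × GaussianInt) :=
  {p | p.1 ≠ 0 ∧ p.2 ≠ 0 ∧ p.1 + p.2 ≠ 0 ∧ IsCoprime p.1 p.2}

/-- the inequality `rad(abc) ≥ c_ε max {|a|, |b|, |c|} ^ (1 - ε)`, for every `ε > 0`, for the triples that belong to
`T` -/
def ABCOn (T : Set (GaussianInt × GaussianInt)) : Prop :=
  ∀ ε : ℝ, 0 < ε → ∃ c : ℝ, 0 < c ∧
    ∀ p ∈ T, p ∈ Triples → c * size p.1 p.2 ^ (1 - ε) ≤ rad (p.1 * p.2 * (p.1 + p.2))

/-- isosceles triangles: two of `|a|`, `|b|`, `|c|` are equal -/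
def Isosceles : Set (GaussianInt × GaussianInt) :=
  {p | ‖GaussianInt.toComplex p.1‖ = ‖GaussianInt.toComplex p.2‖ ∨
    ‖GaussianInt.toComplex p.2‖ = ‖GaussianInt.toComplex (p.1 + p.2)‖ ∨
    ‖GaussianInt.toComplex p.1‖ = ‖GaussianInt.toComplex (p.1 + p.2)‖}

/-- degenerate triangles: the ratios of `a`, `b`, `c` are real -/
def Degenerate : Set (GaussianInt × GaussianInt) := {p | (p.1 * star p.2).im = 0}

/-- the triples `z⁴ - z̄⁴ = c` -/
def FourthPowers : Set (GaussianInt × GaussianInt) := {p | ∃ z : GaussianInt, p = (z ^ 4, -(star z) ^ 4)}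

theorem mono {T T' : Set (GaussianInt × GaussianInt)} (h : T ⊆ T') (H : ABCOn T') : ABCOn T := by
  intro ε hε
  obtain ⟨c, hc, hH⟩ := H ε hε
  exact ⟨c, hc, fun p hp => hH p (h hp)⟩

theorem fourth_sub : FourthPowers ⊆ Isosceles := by
  rintro p ⟨z, rfl⟩
  left
  show Pool.Agent.TH402.AK.nm (z ^ 4) = Pool.Agent.TH402.AK.nm (-(star z) ^ 4)
  rw [Pool.Agent.Q252.IT.nm_neg, Pool.Agent.Q252.IT.nm_pow, Pool.Agent.Q252.IT.nm_pow,
    Pool.Agent.Q252.IT.nm_star]

theorem zabc (H : ABCInt) : Pool.Agent.Q252.IT.ZABC := by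
  have h1 : Q265.LC.Ineq Set.univ := Q265.LC.abc_iff.2 H
  intro ε hε
  obtain ⟨κ, hκ⟩ := (Q265.LC.ineq_iff Set.univ).1 h1 ε hε
  exact ⟨κ, fun a b c ha hb hc hab habc => hκ a b c ha hb hc hab habc (Set.mem_univ _)⟩

theorem forward (H : ABCInt) : ABCOn (Isosceles ∪ Degenerate) := by
  intro ε hε
  obtain ⟨c1, hc1, h1⟩ := Pool.Agent.Q252.IT.iso (zabc H) hε
  obtain ⟨c2, hc2, h2⟩ := Pool.Agent.Q252.IT.deg (zabc H) hε
  refine ⟨min c1 c2, lt_min hc1 hc2, ?_⟩
  rintro ⟨a, b⟩ hp ⟨k1, k2, k3, k4⟩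
  simp only at k1 k2 k3 k4
  have h0 : 0 ≤ size a b ^ (1 - ε) := by
    refine Real.rpow_nonneg ?_ _
    exact (norm_nonneg _).trans (le_max_left _ _)
  rcases hp with hp | hp
  · exact (mul_le_mul_of_nonneg_right (min_le_left _ _) h0).trans (h1 a b k1 k2 k3 k4 hp)
  · exact (mul_le_mul_of_nonneg_right (min_le_right _ _) h0).trans (h2 a b k1 k2 k3 k4 hp)

theorem backward (H : ABCOn FourthPowers) : ABCInt := by
  have h1 : Q265.LO.On (Q265.SP.Dih 2) := by
    intro ε hε
    set δ : ℝ := ε / (1 + ε) with hδ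
    have hδ0 : 0 < δ := by positivity
    have hδ1 : δ < 1 := by rw [hδ, div_lt_one (by positivity)]; linarith
    obtain ⟨c, hc, hH⟩ := H δ hδ0
    refine ⟨(1 / c) ^ (1 + ε), ?_⟩
    rintro ⟨a, b, d⟩ ⟨⟨t1, t2, t3, t4⟩, x, y, z, e1, e2, e3⟩
    simp only at t1 t2 t3 t4 e1 e2 e3
    subst e1 e2 e3
    have hx : 0 < x := Nat.pos_of_ne_zero (by rintro rfl; simp at t1)
    have hy : 0 < y := Nat.pos_of_ne_zero (by rintro rfl; simp at t2)
    have key := Pool.Agent.Q252.IT.pyth hδ1 hc (fun w k1 k2 k3 => hH (w ^ 4, -(star w) ^ 4) ⟨w, rfl⟩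
      ⟨k2, k1.symm.ne_zero_or_ne_zero.elim id (fun h => by
        intro h0
        exact k2 (by
          have := Pool.Agent.Q252.IT.nm_pow w 4
          have h5 : star w = 0 := by
            by_contra h6
            exact (neg_ne_zero.2 (pow_ne_zero 4 h6)) h0
          rw [star_eq_zero.1 h5]
          simp)), k3, k1⟩) hx hy t3 t4
    show ((z ^ 2 : ℕ) : ℝ) ≤ (1 / c) ^ (1 + ε) * (R (x ^ 2 * (4 * y ^ 2) * z ^ 2) : ℝ) ^ (1 + ε)
    set S : ℝ := ((z ^ 2 : ℕ) : ℝ) with hS
    have hS0 : 0 ≤ S := Nat.cast_nonneg _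
    have hR0 : (0 : ℝ) ≤ (R (x ^ 2 * (4 * y ^ 2) * z ^ 2) : ℝ) := Nat.cast_nonneg _
    have k2 : S ^ (1 - δ) ≤ 1 / c * (R (x ^ 2 * (4 * y ^ 2) * z ^ 2) : ℝ) := by
      rw [one_div, inv_mul_eq_div, le_div_iff₀ hc, mul_comm]
      exact key
    have k3 := Real.rpow_le_rpow (by positivity) k2 (z := 1 + ε) (by positivity)
    rw [← Real.rpow_mul hS0, Real.mul_rpow (by positivity) hR0] at k3
    have k4 : (1 - δ) * (1 + ε) = 1 := by
      rw [hδ]
      field_simp
      ring
    rwa [k4, Real.rpow_one] at k3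
  have h2 := Q265.SP.dih (n := 2) (by norm_num) h1
  intro ε hε
  obtain ⟨κ, hκ⟩ := h2 ε hε
  exact ⟨κ, fun a b c ha hb hab hc => hκ (a, b, c) ⟨ha, hb, hab, hc⟩⟩

/-- **The abc inequality for isosceles triples of Gaussian integers is equivalent to the abc conjecture over the
integers**, also together with the degenerate triples, and also for the triples `z⁴ - z̄⁴ = c` alone; the abc
conjecture over the integers gives lower bounds for the imaginary parts of the powers of a Gaussian integer. -/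
theorem result :
    (ABCInt ↔ ABCOn Isosceles) ∧
    (ABCInt ↔ ABCOn (Isosceles ∪ Degenerate)) ∧
    (ABCInt ↔ ABCOn FourthPowers) ∧
    (ABCInt → ∀ ε : ℝ, 0 < ε → ∃ c : ℝ, 0 < c ∧ ∀ (z : GaussianInt) (g : ℕ),
      IsCoprime z (star z) → (z ^ g).im ≠ 0 →
        c * ‖GaussianInt.toComplex z‖ ^ ((1 - ε) * g - 2) ≤ |((z ^ g).im : ℝ)|) := by
  refine ⟨⟨fun H => mono Set.subset_union_left (forward H), fun H => backward (mono fourth_sub H)⟩,
    ⟨forward, fun H => backward (mono (fourth_sub.trans Set.subset_union_left) H)⟩,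
    ⟨fun H => mono (fourth_sub.trans Set.subset_union_left) (forward H), backward⟩, ?_⟩
  intro H ε hε
  exact Pool.Agent.Q252.IT.impow (zabc H) hε

end Pool.Agent.Results.MP_dc323a_nt.IsoscelesTriples
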