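import Mathlib
import Pool.Agent.Q252.OC.G

/-!
# The abc conjecture over the Gaussian integers and the octahedral equation `x² + 108 y⁴ = z³`

The abc conjecture over `ℤ[i]` (for all coprime `a + b = c`) is equivalent to its restriction to the coprime
solutions of ONE equation, that is, to the triples `x² + 108 y⁴ = z³`; moreover one may assume that `y` is divisible
by a given Gaussian integer `N ≠ 0`, and that `x, y, z` are the values of the octahedral forms of the degrees
`12, 6, 8` at coprime Gaussian integers `u, v` with `N ∣ u v`.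
-/

set_option autoImplicit false

namespace Pool.Agent.Results.MP_dc323a_nt.OctahedralEquation

/-- `max {|a|, |b|, |c|}` for the triple `a + b = c` -/
noncomputable def size (a b : GaussianInt) : ℝ :=
  max ‖GaussianInt.toComplex a‖ (max ‖GaussianInt.toComplex b‖ ‖GaussianInt.toComplex (a + b)‖)

/-- `rad(n)`: the product of `|Q|` over the Gaussian primes `Q` dividing `n`, one from each class of associates,
namely the one with `Re Q > 0` and `Im Q ≥ 0` -/
noncomputable def rad (n : GaussianInt) : ℝ :=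
  ∏ᶠ Q ∈ {Q : GaussianInt | Prime Q ∧ Q ∣ n ∧ (0 < Q.re ∧ 0 ≤ Q.im)}, ‖GaussianInt.toComplex Q‖

/-- the triples `a + b = c` of coprime Gaussian integers with `abc ≠ 0`, given by the pairs `(a, b)` -/
def Triples : Set (GaussianInt × GaussianInt) :=
  {p | p.1 ≠ 0 ∧ p.2 ≠ 0 ∧ p.1 + p.2 ≠ 0 ∧ IsCoprime p.1 p.2}

/-- the inequality `rad(abc) ≥ c_ε max {|a|, |b|, |c|} ^ (1 - ε)`, for every `ε > 0`, for the triples that belong to
`T` -/
def ABCOn (T : Set (GaussianInt × GaussianInt)) : Prop :=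
  ∀ ε : ℝ, 0 < ε → ∃ c : ℝ, 0 < c ∧
    ∀ p ∈ T, p ∈ Triples → c * size p.1 p.2 ^ (1 - ε) ≤ rad (p.1 * p.2 * (p.1 + p.2))

/-- the abc conjecture over the Gaussian integers -/
def ABC : Prop := ABCOn Set.univ

/-- the triples `x² + 108 y⁴ = z³` with `N ∣ y` -/
def Equation (N : GaussianInt) : Set (GaussianInt × GaussianInt) :=
  {p | ∃ x y z : GaussianInt, N ∣ y ∧ x ^ 2 + 108 * y ^ 4 = z ^ 3 ∧ p = (x ^ 2, 108 * y ^ 4)}

/-- the octahedral form of degree `12` -/
def g12 (u v : GaussianInt) : GaussianInt := u ^ 12 - 33 * u ^ 8 * v ^ 4 - 33 * u ^ 4 * v ^ 8 + v ^ 12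

/-- the octahedral form of degree `6` -/
def g6 (u v : GaussianInt) : GaussianInt := u * v * (u ^ 4 - v ^ 4)

/-- the octahedral form of degree `8` -/
def g8 (u v : GaussianInt) : GaussianInt := u ^ 8 + 14 * u ^ 4 * v ^ 4 + v ^ 8

/-- the triples `g12² + 108 g6⁴ = g8³` with the forms taken at coprime `u`, `v` such that `N ∣ u v` -/
def Forms (N : GaussianInt) : Set (GaussianInt × GaussianInt) :=
  {p | ∃ u v : GaussianInt, IsCoprime u v ∧ N ∣ u * v ∧
    g12 u v ^ 2 + 108 * g6 u v ^ 4 = g8 u v ^ 3 ∧ p = (g12 u v ^ 2, 108 * g6 u v ^ 4)}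

theorem forms_sub (N : GaussianInt) : Forms N ⊆ Equation N := by
  rintro p ⟨u, v, h1, h2, h3, h4⟩
  refine ⟨g12 u v, g6 u v, g8 u v, ?_, h3, h4⟩
  unfold g6
  exact Dvd.dvd.mul_right h2 _

theorem mono {T T' : Set (GaussianInt × GaussianInt)} (h : T ⊆ T') (H : ABCOn T') : ABCOn T := by
  intro ε hε
  obtain ⟨c, hc, hH⟩ := H ε hε
  exact ⟨c, hc, fun p hp => hH p (h hp)⟩

theorem back {N : GaussianInt} (hN : N ≠ 0) (H : ABCOn (Forms N)) : ABC := by
  have h1 : Pool.Agent.Q252.OC.GABC (Pool.Agent.Q252.OC.GForms N) := by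
    intro ε hε
    obtain ⟨c, hc, hH⟩ := H ε hε
    refine ⟨c, hc, fun p hp hG => hH p ?_ hG⟩
    obtain ⟨u, v, h1, h2, h3⟩ := hp
    exact ⟨u, v, h1, h2, Pool.Agent.Q252.OC.oct u v, h3⟩
  have h2 := Pool.Agent.Q252.OC.back hN h1
  intro ε hε
  obtain ⟨c, hc, hH⟩ := h2 ε hε
  exact ⟨c, hc, fun p hp hG => hH p hp hG⟩

/-- **The coprime solutions of the octahedral equation carry the whole abc conjecture over the Gaussian
integers.** -/
theorem result (N : GaussianInt) (hN : N ≠ 0) :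
    (ABC ↔ ABCOn (Equation N)) ∧ (ABC ↔ ABCOn (Forms N)) :=
  ⟨⟨mono (Set.subset_univ _), fun H => back hN (mono (forms_sub N) H)⟩, mono (Set.subset_univ _), back hN⟩

end Pool.Agent.Results.MP_dc323a_nt.OctahedralEquation
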