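import Mathlib
import Pool.Agent.Q103.SD.NFThreeMain
import Pool.Agent.TH402.AK.Quad

/-!
# The abc inequality over the Gaussian integers for terms composed of numbers with small digits

Let `t` be a Gaussian integer (the base). The values `q i = F i (t)` of polynomials over the Gaussian
integers are numbers with the digits `(F i).coeff j` in base `t`. Let the total number of digits be
bounded, all digits at most `|t| ^ δ` and the first and last digits units. Consider `a + b = c`.

* If `b` and `c` are products of powers of the `q i` (exponents up to `|t| ^ δ`, any small factors),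
  and `a` is an arbitrary Gaussian integer, then `max * |t| ^ (1 - ε) * rad a ≤ |a| * rad (a b c)`,
  and for a power `t = π ^ v` of a prime and `a = π ^ m * a'` one has
  `max * rad a' ≤ |t| ^ ε * |a'| * rad (a b c)`, if `b`, `c` are coprime and the product of the `q i`
  that occur is squarefree.
* If `a`, `b` and `c` are such products of pairwise coprime `q i`, then
  `max * |t| ^ (1 - ε) ≤ rad (a b c)`.
-/

set_option autoImplicit false

namespace Pool.Agent.Results.MP_dc323a_nt.SmallDigitTerms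

open Polynomial

section Defs

/-- The complex absolute value `|z|`. -/
noncomputable def size (z : GaussianInt) : ℝ := ‖GaussianInt.toComplex z‖

/-- The product of `|Q|` over the Gaussian primes `Q` dividing `x`, one from each class of
associates. -/
noncomputable def rad (x : GaussianInt) : ℝ :=
  ∏ᶠ Q ∈ {Q : GaussianInt | Prime Q ∧ Q ∣ x ∧ 0 < Q.re ∧ 0 ≤ Q.im}, size Q

/-- The conditions on the base `t` and the polynomials `F i`, that is, on the numbers `F i (t)`. -/
structure Numbers (D : ℕ) (δ : ℝ) {n : ℕ} (t : GaussianInt) (F : Fin n → GaussianInt[X]) :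
    Prop where
  /-- at least two digits -/
  two_digits : ∀ i, 0 < (F i).natDegree
  /-- bounded number of digits -/
  number : ∑ i, (F i).natDegree ≤ D
  /-- small digits -/
  digits : ∀ i j, size ((F i).coeff j) ≤ size t ^ δ
  /-- the first digits are units -/
  first : ∀ i, IsUnit (F i).leadingCoeff
  /-- the last digits are units -/
  last : ∀ i, IsUnit ((F i).coeff 0)

/-- `x` is the product of the `e i`-th powers of the numbers `F i (t)` and of a nonzero number of
size at most `|t| ^ δ`, where the sum of the exponents is at most `|t| ^ δ`. -/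
def Composed (δ : ℝ) {n : ℕ} (t : GaussianInt) (F : Fin n → GaussianInt[X]) (e : Fin n → ℕ)
    (x : GaussianInt) : Prop :=
  ∃ u : GaussianInt, u ≠ 0 ∧ size u ≤ size t ^ δ ∧ ((∑ i, e i : ℕ) : ℝ) ≤ size t ^ δ ∧
    x = u * ∏ i, (F i).eval t ^ e i

/-- `max(|a|, |b|, |c|)` -/
noncomputable def height (a b c : GaussianInt) : ℝ := max (size a) (max (size b) (size c))

end Defs

section

open NumberField IsDedekindDomain Pool.Agent.TH402.AK Pool.Agent.Q103.SD Pool.Agent.Q103.SD.NF

theorem sig (σ : K4 →+* ℂ) (z : GaussianInt) : ‖σ ((e z : 𝓞 K4) : K4)‖ = size z := by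
  rw [← InfinitePlace.apply]
  exact place_e _ z

theorem nrm_e (z : GaussianInt) : nrm (e z) = size z ^ 2 := by
  unfold nrm
  rw [← absNorm_eq]
  exact absNorm_e z

theorem HH_e (a b c : GaussianInt) : HH (e a) (e b) (e c) = height a b c ^ 2 := by
  rw [HH_eq, ← sum_mult, ← Finset.prod_pow_eq_pow_sum]
  apply Finset.prod_congr rfl
  intro w _
  rw [place_e, place_e, place_e]
  rfl

theorem radK_e {z : GaussianInt} (hz : z ≠ 0) : radK (e z) = rad z ^ 2 := by
  have h0 : e z ≠ 0 := (map_ne_zero_iff e e.injective).mpr hz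
  have h1 := rad_sq (n := z) (primes_finite h0).toFinset (by
    intro v
    rw [Set.Finite.mem_toFinset]
    rfl)
  rw [radK_eq h0]
  exact h1.symm

theorem size_nonneg (z : GaussianInt) : 0 ≤ size z := norm_nonneg _

theorem rad_nonneg (z : GaussianInt) : 0 ≤ rad z := rad_pos z

theorem size_unit {z : GaussianInt} (hz : IsUnit z) : size z = 1 := by
  have h1 : nrm (e z) = 1 := by
    have h2 : IsUnit (e z) := hz.map e
    have h3 := NumberField.isUnit_iff_norm.mp h2
    unfold nrm
    rw [← RingOfIntegers.coe_norm] at *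
    have h4 : |((RingOfIntegers.norm ℚ (e z) : 𝓞 ℚ) : ℚ)| = 1 := h3
    exact_mod_cast h4
  rw [nrm_e] at h1
  have h5 := size_nonneg z
  nlinarith

theorem size_mul (x y : GaussianInt) : size (x * y) = size x * size y := by
  unfold size
  rw [map_mul, norm_mul]

theorem size_pos {x : GaussianInt} (hx : x ≠ 0) : 0 < size x := by
  unfold size
  rw [norm_pos_iff]
  intro h
  exact hx (GaussianInt.toComplex_eq_zero.mp h)

theorem eval_e {n : ℕ} (F : Fin n → GaussianInt[X]) (t : GaussianInt) (i : Fin n) :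
    ((F i).map (e : GaussianInt →+* 𝓞 K4)).eval (e t) = e ((F i).eval t) := by
  rw [eval_map]
  exact eval₂_at_apply (e : GaussianInt →+* 𝓞 K4) t

theorem sum_data {D : ℕ} {δ : ℝ} {n : ℕ} {t : GaussianInt} {F : Fin n → GaussianInt[X]}
    (hF : Numbers D δ t F) : SumData (size t) (size t ^ δ) D (e t)
      (fun i => (F i).map (e : GaussianInt →+* 𝓞 K4)) := by
  have hinj : Function.Injective (e : GaussianInt →+* 𝓞 K4) := e.injective
  have hlc : ∀ i, ((F i).map (e : GaussianInt →+* 𝓞 K4)).leadingCoeff = e (F i).leadingCoeff :=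
    fun i => leadingCoeff_map_of_injective hinj _
  refine ⟨?_, ?_, ?_, ?_, ?_, ?_⟩
  · intro σ
    rw [sig]
  · refine le_trans (le_of_eq ?_) hF.number
    exact Finset.sum_congr rfl fun i _ => natDegree_map_eq_of_injective hinj _
  · intro i j σ
    rw [coeff_map]
    show ‖σ ((e ((F i).coeff j) : 𝓞 K4) : K4)‖ ≤ _
    rw [sig]
    exact hF.digits i j
  · intro i σ
    rw [hlc, sig, size_unit (hF.first i)]
  · intro i σ
    rw [coeff_map]
    show ‖σ ((e ((F i).coeff 0) : 𝓞 K4) : K4)‖ ≤ _
    rw [sig, size_unit (hF.last i)]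
  · intro i
    rw [coeff_map]
    exact (map_ne_zero_iff _ hinj).mpr (hF.last i).ne_zero

/-- **The abc inequality over the Gaussian integers for numbers composed of numbers with small
digits.** -/
theorem result (D : ℕ) (ε : ℝ) (hε : 0 < ε) : ∃ δ t₀ : ℝ, 0 < δ ∧
    ∀ t : GaussianInt, t₀ ≤ size t → ∀ (n : ℕ) (F : Fin n → GaussianInt[X]), Numbers D δ t F →
      (∀ (a b c : GaussianInt) (β γ : Fin n → ℕ) (Q : GaussianInt), a + b = c → a ≠ 0 →
        Composed δ t F β b → Composed δ t F γ c → (∃ i, β i ≠ 0 ∨ γ i ≠ 0) →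
        Q = ∏ i ∈ Finset.univ.filter (fun i => β i ≠ 0 ∨ γ i ≠ 0), (F i).eval t →
        height a b c * size t ^ (1 - ε) ≤ size a * size Q ∧
        (∀ (π a' : GaussianInt) (v m : ℕ), Prime π → t = π ^ v → a = π ^ m * a' →
          height a b c ≤ size t ^ ε * size a' * size Q) ∧
        (IsCoprime b c → Squarefree Q →
          height a b c * size t ^ (1 - ε) * rad a ≤ size a * rad (a * b * c) ∧
          ∀ (π a' : GaussianInt) (v m : ℕ), Prime π → t = π ^ v → a = π ^ m * a' →
            height a b c * rad a' ≤ size t ^ ε * size a' * rad (a * b * c))) ∧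
      ((∀ i j, i ≠ j → IsCoprime ((F i).eval t) ((F j).eval t)) →
        ∀ (a b c : GaussianInt) (α β γ : Fin n → ℕ) (Q : GaussianInt), a + b = c →
        IsCoprime a b → Composed δ t F α a → Composed δ t F β b → Composed δ t F γ c →
        (∃ i, α i ≠ 0 ∨ β i ≠ 0 ∨ γ i ≠ 0) →
        Q = ∏ i ∈ Finset.univ.filter (fun i => α i ≠ 0 ∨ β i ≠ 0 ∨ γ i ≠ 0), (F i).eval t →
        height a b c * size t ^ (1 - ε) ≤ size Q ∧
        (Squarefree Q → height a b c * size t ^ (1 - ε) ≤ rad (a * b * c))) := by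
  classical
  obtain ⟨d1, hd1, h1⟩ := free_main D 2 hε
  obtain ⟨d2, hd2, h2⟩ := three_main D hε
  obtain ⟨δ, hδd⟩ : ∃ δ, δ = min d1 d2 := ⟨_, rfl⟩
  have hδ : 0 < δ := by rw [hδd]; exact lt_min hd1 hd2
  obtain ⟨T1, hT1, g1⟩ := h1 δ hδ (by rw [hδd]; exact min_le_left _ _)
  obtain ⟨T2, hT2, g2⟩ := h2 δ hδ (by rw [hδd]; exact min_le_right _ _)
  refine ⟨δ, max T1 T2, hδ, ?_⟩
  intro t ht n F hF
  have ht1 : T1 ≤ size t := (le_max_left _ _).trans ht
  have ht2 : T2 ≤ size t := (le_max_right _ _).trans ht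
  have hs0 : 0 < size t := by linarith
  have hH : 1 ≤ size t ^ δ := Real.one_le_rpow (by linarith) hδ.le
  have hSD := sum_data hF
  have hinj : Function.Injective (e : GaussianInt →+* 𝓞 K4) := e.injective
  have hpos : ∀ i, 0 < ((F i).map (e : GaussianInt →+* 𝓞 K4)).natDegree := by
    intro i
    rw [natDegree_map_eq_of_injective hinj]
    exact hF.two_digits i
  have hprod : ∀ (u : GaussianInt) (k : Fin n → ℕ), e (u * ∏ i, (F i).eval t ^ k i) =
      e u * ∏ i, ((F i).map (e : GaussianInt →+* 𝓞 K4)).eval (e t) ^ k i := by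
    intro u k
    rw [map_mul, map_prod]
    congr 1
    apply Finset.prod_congr rfl
    intro i _
    rw [eval_e, map_pow]
  have hprodU : ∀ U : Finset (Fin n), e (∏ i ∈ U, (F i).eval t) =
      ∏ i ∈ U, ((F i).map (e : GaussianInt →+* 𝓞 K4)).eval (e t) := by
    intro U
    rw [map_prod]
    apply Finset.prod_congr rfl
    intro i _
    rw [eval_e]
  have hsqf : ∀ Q : GaussianInt, Squarefree Q → Squarefree (Ideal.span {e Q}) := by
    intro Q hQ
    have h3 : Squarefree (e Q) := by
      intro y hy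
      obtain ⟨z, rfl⟩ := e.surjective y
      rw [← map_mul] at hy
      exact (hQ z ((map_dvd_iff e).mp hy)).map e
    have : IsPrincipalIdealRing (𝓞 K4) := IsPrincipalIdealRing.of_surjective e e.surjective
    intro I hI
    obtain ⟨y, hy⟩ := (IsPrincipalIdealRing.principal I).principal
    rw [← Ideal.span] at hy
    rw [hy, Ideal.span_singleton_mul_span_singleton] at hI
    have h4 : y * y ∣ e Q := by
      rw [← Ideal.mem_span_singleton]
      exact (Ideal.dvd_span_singleton).mp hI
    rw [hy, Ideal.isUnit_iff, Ideal.span_singleton_eq_top]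
    exact h3 y h4
  have hrpow : ∀ x : ℝ, (size t ^ 2) ^ x = (size t ^ x) ^ 2 := by
    intro x
    rw [← Real.rpow_natCast_mul hs0.le, ← Real.rpow_mul_natCast hs0.le, mul_comm]
  have hsq : ∀ x y : ℝ, 0 ≤ y → x ^ 2 ≤ y ^ 2 → x ≤ y := fun x y hy h =>
    le_of_sq_le_sq h hy
  have hh0 : ∀ a b c : GaussianInt, 0 ≤ height a b c := fun a b c =>
    le_max_of_le_left (size_nonneg a)
  have hprime : ∀ π : GaussianInt, Prime π → Prime (e π) := fun π h => (MulEquiv.prime_iff e).2 h
  constructor
  · intro a b c β γ Q habc ha0 hb hc hne hQ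
    obtain ⟨ub, hub0, hub, hβ, hb⟩ := hb
    obtain ⟨uc, huc0, huc, hγ, hc⟩ := hc
    have hU : (used2 β γ).Nonempty := by
      obtain ⟨i, hi⟩ := hne
      exact ⟨i, by unfold used2; rw [Finset.mem_filter]; exact ⟨Finset.mem_univ _, hi⟩⟩
    have hmain := g1 (size t) ht1 K4 finrank4.le n (e t) _ hSD hpos (e ub) (e uc)
      ((map_ne_zero_iff e e.injective).mpr hub0) ((map_ne_zero_iff e e.injective).mpr huc0)
      (fun σ => by rw [sig]; exact hub) (fun σ => by rw [sig]; exact huc) β γ hβ hγ hU
      (e a) (e b) (e c) (e Q) (by rw [hb, hprod]) (by rw [hc, hprod])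
      (by rw [← map_add, habc]) ((map_ne_zero_iff e e.injective).mpr ha0)
      (by rw [hQ, ← hprodU]; rfl)
    obtain ⟨hval, -, m1, m2, m3⟩ := hmain
    have hval' : ∀ i, (F i).eval t ≠ 0 := by
      intro i h0
      apply hval i
      rw [eval_e, h0, map_zero]
    have hpr : ∀ k : Fin n → ℕ, ∏ i, (F i).eval t ^ k i ≠ 0 := fun k =>
      Finset.prod_ne_zero_iff.mpr fun i _ => pow_ne_zero _ (hval' i)
    have hb0 : b ≠ 0 := by rw [hb]; exact mul_ne_zero hub0 (hpr β)
    have hc0 : c ≠ 0 := by rw [hc]; exact mul_ne_zero huc0 (hpr γ)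
    have habc0 : a * b * c ≠ 0 := mul_ne_zero (mul_ne_zero ha0 hb0) hc0
    have habce : e a * e b * e c = e (a * b * c) := by rw [map_mul, map_mul]
    refine ⟨?_, ?_, ?_⟩
    · rw [HH_e, nrm_e, nrm_e, nrm_e, hrpow] at m1
      apply hsq _ _ (mul_nonneg (size_nonneg _) (size_nonneg _))
      rw [mul_pow, mul_pow]
      exact m1
    · intro π a' v m hπ htv haπ
      have m4 := m2 (e π) (e a') v m (hprime π hπ) (by rw [htv, map_pow])
        (by rw [haπ, map_mul, map_pow])
      rw [HH_e, nrm_e, nrm_e, nrm_e, hrpow] at m4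
      apply hsq _ _ (mul_nonneg (mul_nonneg (Real.rpow_nonneg hs0.le _) (size_nonneg _))
        (size_nonneg _))
      rw [mul_pow, mul_pow, mul_assoc]
      exact m4
    · intro hco hsqQ
      obtain ⟨m5, m6⟩ := m3 (hco.map (e : GaussianInt →+* 𝓞 K4)) (hsqf Q hsqQ)
      rw [habce, radK_e habc0] at m5 m6
      constructor
      · rw [HH_e, nrm_e, nrm_e, hrpow, radK_e ha0] at m5
        apply hsq _ _ (mul_nonneg (size_nonneg _) (rad_nonneg _))
        rw [mul_pow, mul_pow, mul_pow]
        exact m5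
      · intro π a' v m hπ htv haπ
        have ha'0 : a' ≠ 0 := by
          rintro rfl
          rw [mul_zero] at haπ
          exact ha0 haπ
        have m7 := m6 (e π) (e a') v m (hprime π hπ) (by rw [htv, map_pow])
          (by rw [haπ, map_mul, map_pow])
        rw [HH_e, nrm_e, nrm_e, hrpow, radK_e ha'0] at m7
        apply hsq _ _ (mul_nonneg (mul_nonneg (Real.rpow_nonneg hs0.le _) (size_nonneg _))
          (rad_nonneg _))
        rw [mul_pow, mul_pow, mul_pow, mul_assoc]
        exact m7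
  · intro hpw a b c α β γ Q habc hco ha hb hc hne hQ
    obtain ⟨ua, hua0, hua, hα, ha⟩ := ha
    obtain ⟨ub, hub0, hub, hβ, hb⟩ := hb
    obtain ⟨uc, huc0, huc, hγ, hc⟩ := hc
    have hU : (Deg.used α β γ).Nonempty := by
      obtain ⟨i, hi⟩ := hne
      exact ⟨i, by unfold Deg.used; rw [Finset.mem_filter]; exact ⟨Finset.mem_univ _, hi⟩⟩
    have hDK0 := hSD.dataK hH hpos
    have hDK : DataK (size t) (size t ^ δ) D (e t)
        (fun i => (F i).map (e : GaussianInt →+* 𝓞 K4)) (e ua) (e ub) (e uc) α β γ :=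
      ⟨hDK0.big, hDK0.pos, hDK0.deg, hDK0.coeff, hDK0.last, hDK0.first,
        (map_ne_zero_iff e e.injective).mpr hua0, (map_ne_zero_iff e e.injective).mpr hub0,
        (map_ne_zero_iff e e.injective).mpr huc0, fun σ => by rw [sig]; exact hua,
        fun σ => by rw [sig]; exact hub, fun σ => by rw [sig]; exact huc, hα, hβ, hγ⟩
    have hmain := g2 (size t) ht2 K4 n (e t) _ (e ua) (e ub) (e uc) α β γ hDK
      (fun i j hij => by
        rw [eval_e, eval_e]
        exact (hpw i j hij).map (e : GaussianInt →+* 𝓞 K4)) (e a) (e b) (e c) (e Q)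
      (by rw [ha, hprod]) (by rw [hb, hprod]) (by rw [hc, hprod]) (by rw [← map_add, habc])
      (hco.map (e : GaussianInt →+* 𝓞 K4)) hU (by rw [hQ, ← hprodU]; rfl)
    obtain ⟨hval, -, m1, m2⟩ := hmain
    have hval' : ∀ i, (F i).eval t ≠ 0 := by
      intro i h0
      apply hval i
      rw [eval_e, h0, map_zero]
    have hpr : ∀ k : Fin n → ℕ, ∏ i, (F i).eval t ^ k i ≠ 0 := fun k =>
      Finset.prod_ne_zero_iff.mpr fun i _ => pow_ne_zero _ (hval' i)
    have ha0 : a ≠ 0 := by rw [ha]; exact mul_ne_zero hua0 (hpr α)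
    have hb0 : b ≠ 0 := by rw [hb]; exact mul_ne_zero hub0 (hpr β)
    have hc0 : c ≠ 0 := by rw [hc]; exact mul_ne_zero huc0 (hpr γ)
    have habc0 : a * b * c ≠ 0 := mul_ne_zero (mul_ne_zero ha0 hb0) hc0
    have habce : e a * e b * e c = e (a * b * c) := by rw [map_mul, map_mul]
    constructor
    · rw [HH_e, nrm_e, nrm_e, hrpow] at m1
      apply hsq _ _ (size_nonneg _)
      rw [mul_pow]
      exact m1
    · intro hsqQ
      have m3 := m2 (hsqf Q hsqQ)
      rw [habce, radK_e habc0, HH_e, nrm_e, hrpow] at m3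
      apply hsq _ _ (rad_nonneg _)
      rw [mul_pow]
      exact m3

end

end Pool.Agent.Results.MP_dc323a_nt.SmallDigitTerms
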