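import Mathlib
import Pool.Agent.Q29.SE.Choice

/-!
# The abc inequality over the Gaussian integers for triples composed of numbers in a small disc

Let `t` be a Gaussian integer of large absolute value, and let `q_1, ..., q_n` be Gaussian integers
in the disc of radius `|t| ^ δ` around `t` (or, more generally, values at `t` of nonconstant monic
polynomials of total degree at most `K` with coefficients of size at most `|t| ^ δ`). Let
`b = β ∏ q_i ^ b_i` and `c = γ ∏ q_i ^ c_i` with `∑ b_i, ∑ c_i ≤ |t| ^ δ` and `|β|, |γ| ≤ |t| ^ δ`,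
and let `a = c - b ≠ 0`; nothing is assumed about the prime factors of `a`. Then

  `max (|b|, |c|) |t| ^ (1 - ε) ≤ |a| ∏ |q_i|`,

the product being over the `q_i` which occur. If `a ∏ q_i` is squarefree, the right side is at most
`rad (abc)`, so that the inequality of the problem holds with `ε = 0`, `c_ε = 1 / 2` and a power of
`|t|` to spare.
-/

set_option autoImplicit false

namespace Pool.Agent.Results.MP_dc323a_nt.SmallDiscs

open Polynomial

/-- The absolute value of a Gaussian integer. -/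
noncomputable def av (x : GaussianInt) : ℝ := ‖GaussianInt.toComplex x‖

/-- The `q_i` are values at `t` of nonconstant polynomials of total degree at most `K` whose
coefficients have absolute value at most `|t| ^ δ` and whose leading coefficients are units. This
is the case with `K = n` if `|q_i - t| ≤ |t| ^ δ` for all `i` (and `|t| ≥ 1`). -/
def Near (K : ℕ) (δ : ℝ) (t : GaussianInt) {n : ℕ} (q : Fin n → GaussianInt) : Prop :=
  ∃ F : Fin n → GaussianInt[X], (∀ i, 1 ≤ (F i).natDegree) ∧ ∑ i, (F i).natDegree ≤ K ∧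
    (∀ i, IsUnit (F i).leadingCoeff) ∧ (∀ i j, av ((F i).coeff j) ≤ av t ^ δ) ∧
    ∀ i, q i = (F i).eval t

/-- `S` consists of the Gaussian primes dividing `m`, one from each class of associates, so that
`rad m` is the product of the absolute values of the members of `S`. -/
def PrimeDivisors (m : GaussianInt) (S : Finset GaussianInt) : Prop :=
  (∀ Q ∈ S, Prime Q ∧ Q ∣ m) ∧ (∀ Q : GaussianInt, Prime Q → Q ∣ m → ∃ R ∈ S, Associated Q R) ∧
    ∀ Q ∈ S, ∀ R ∈ S, Associated Q R → Q = R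

theorem av_zero : av 0 = 0 := by
  unfold av
  rw [map_zero, norm_zero]

theorem av_one : av 1 = 1 := by
  unfold av
  rw [map_one, norm_one]

theorem av_mul (x y : GaussianInt) : av (x * y) = av x * av y := by
  unfold av
  rw [map_mul, norm_mul]

theorem av_neg (x : GaussianInt) : av (-x) = av x := by
  unfold av
  rw [map_neg, norm_neg]

theorem av_prod {ι : Type*} (S : Finset ι) (f : ι → GaussianInt) :
    av (∏ i ∈ S, f i) = ∏ i ∈ S, av (f i) := by
  unfold av
  rw [map_prod, norm_prod]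

theorem av_size : Pool.Agent.Q103.SD.SizeFn av where
  nonneg := fun x => norm_nonneg _
  zero := av_zero
  one := av_one.le
  add := fun x y => by
    unfold av
    rw [map_add]
    exact norm_add_le _ _
  mul := fun x y => (av_mul x y).le

theorem one_le_av {x : GaussianInt} (hx : x ≠ 0) : 1 ≤ av x := by
  have h1 : 0 < x.norm := GaussianInt.norm_pos.mpr hx
  have h2 : (1 : ℝ) ≤ (x.norm : ℝ) := by exact_mod_cast h1
  have h3 : (x.norm : ℝ) = av x ^ 2 := by
    unfold av
    rw [GaussianInt.intCast_real_norm, ← Complex.normSq_eq_norm_sq]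
  rw [h3] at h2
  have h4 : 0 ≤ av x := norm_nonneg _
  nlinarith

theorem av_unit {x : GaussianInt} (hx : IsUnit x) : av x ≤ 1 := by
  obtain ⟨y, hy⟩ := hx.exists_right_inv
  have h1 := one_le_av (right_ne_zero_of_mul (hy ▸ one_ne_zero : x * y ≠ 0))
  have h2 : av x * av y = 1 := by rw [← av_mul, hy, av_one]
  have h3 : 0 ≤ av x := norm_nonneg _
  nlinarith

/-- a squarefree element divides whatever its prime divisors divide -/
theorem squarefree_dvd (Z : GaussianInt) (a : GaussianInt) :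
    Squarefree a → (∀ p : GaussianInt, Prime p → p ∣ a → p ∣ Z) → a ∣ Z := by
  induction a using UniqueFactorizationMonoid.induction_on_prime with
  | h₁ =>
    intro h _
    exact absurd h not_squarefree_zero
  | h₂ x hx =>
    intro _ _
    exact hx.dvd
  | h₃ a p ha hp ih =>
    intro hsq h
    obtain ⟨z, hz⟩ := ih (hsq.squarefree_of_dvd (dvd_mul_left a p))
      fun r hr hra => h r hr (hra.mul_left p)
    have hpa : ¬ p ∣ a := by
      intro hpa
      exact hp.not_isUnit (hsq p (mul_dvd_mul_left p hpa))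
    have hpz : p ∣ a * z := hz ▸ h p hp (dvd_mul_right p a)
    rcases hp.dvd_or_dvd hpz with h1 | h1
    · exact absurd h1 hpa
    · obtain ⟨y, rfl⟩ := h1
      exact ⟨y, by rw [hz]; ring⟩

/-- Gaussian integers in a small disc around `t` -/
theorem near_disc (δ : ℝ) (hδ : 0 ≤ δ) (t : GaussianInt) (ht : 1 ≤ av t) (n : ℕ)
    (q : Fin n → GaussianInt) (hq : ∀ i, av (q i - t) ≤ av t ^ δ) : Near n δ t q := by
  have h1 : 1 ≤ av t ^ δ := Real.one_le_rpow ht hδ
  have hd : ∀ i, (X + C (q i - t)).natDegree = 1 := fun i => natDegree_X_add_C _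
  refine ⟨fun i => X + C (q i - t), fun i => (hd i).ge, ?_, fun i => ?_, fun i j => ?_,
    fun i => by simp⟩
  · simp only [hd]
    simp
  · rw [leadingCoeff_X_add_C]
    exact isUnit_one
  · rw [coeff_add, coeff_X, coeff_C]
    split_ifs with h2 h3 h3
    · omega
    · rw [add_zero, av_one]
      exact h1
    · rw [zero_add]
      exact hq i
    · rw [add_zero, av_zero]
      linarith

open Pool.Agent.Q29.SE in
theorem main_theorem (K : ℕ) (ε : ℝ) (hε : 0 < ε) : ∃ δ : ℝ, 0 < δ ∧ ∃ T₀ : ℝ, 1 ≤ T₀ ∧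
    ∀ t : GaussianInt, T₀ ≤ av t → ∀ (n : ℕ) (q : Fin n → GaussianInt), Near K δ t q →
    ∀ (b c : Fin n → ℕ), ((∑ i, b i : ℕ) : ℝ) ≤ av t ^ δ → ((∑ i, c i : ℕ) : ℝ) ≤ av t ^ δ →
    ∀ U : Finset (Fin n), U.Nonempty → (∀ i, i ∈ U ↔ b i + c i ≠ 0) →
    ∀ β γ : GaussianInt, β ≠ 0 → γ ≠ 0 → av β ≤ av t ^ δ → av γ ≤ av t ^ δ →
    ∀ x y a : GaussianInt, x = β * ∏ i, q i ^ b i → y = γ * ∏ i, q i ^ c i → x + a = y → a ≠ 0 →
      max (av x) (av y) * av t ^ (1 - ε) ≤ av a * ∏ i ∈ U, av (q i) ∧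
      ∀ S : Finset GaussianInt, PrimeDivisors (x * a * y) S → Squarefree (a * ∏ i ∈ U, q i) →
        max (av x) (max (av a) (av y)) * av t ^ (1 - ε) ≤ 2 * ∏ Q ∈ S, av Q := by
  classical
  obtain ⟨δ, hδ, hδ2, T₀, hT₀, hch⟩ := choice K 0 ε hε
  refine ⟨δ, hδ, T₀, hT₀, ?_⟩
  intro t ht n q hq b c hb hc U hU hUi β γ hβ0 hγ0 hβ hγ x y a hx hy hxy ha0
  obtain ⟨F, hdeg, hD, hlc, hco, hqF⟩ := hq
  have ht1 : 1 ≤ av t := hT₀.trans ht
  have ht0 : 0 < av t := by linarith
  obtain ⟨H, hH⟩ : ∃ H : ℝ, H = av t ^ δ := ⟨_, rfl⟩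
  have hH1 : 1 ≤ H := by
    rw [hH]
    exact Real.one_le_rpow ht1 hδ.le
  obtain ⟨N, hN⟩ : ∃ N : ℕ, N = K + 1 + ⌊av t ^ δ⌋₊ := ⟨_, rfl⟩
  have hNle : (N : ℝ) ≤ (K + 2) * av t ^ δ := by
    rw [hN]
    push_cast
    have h1 : ((⌊av t ^ δ⌋₊ : ℕ) : ℝ) ≤ av t ^ δ := Nat.floor_le (by positivity)
    rw [← hH] at h1 ⊢
    have h2 : (K : ℝ) ≤ K * H := le_mul_of_one_le_right (Nat.cast_nonneg _) hH1
    nlinarith
  have hle : ∀ m : ℕ, (m : ℝ) ≤ av t ^ δ → m ≤ N := by
    intro m hm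
    have := Nat.le_floor hm
    omega
  obtain ⟨h1, h2⟩ := hch (av t) ht H hH1 hH.le N (by omega) hNle
  rw [pow_zero, mul_one] at h1
  rw [pow_zero, one_pow, mul_one] at h2
  -- products over `U`
  have hprod : ∀ e : Fin n → ℕ, (∀ i, i ∉ U → e i = 0) →
      ∏ i, q i ^ e i = ∏ i ∈ U, (F i).eval t ^ e i := by
    intro e he
    rw [← Finset.prod_subset (Finset.subset_univ U)]
    · exact Finset.prod_congr rfl fun i _ => by rw [hqF]
    · intro i _ hi
      rw [he i hi, pow_zero]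
  have hbU : ∀ i, i ∉ U → b i = 0 := by
    intro i hi
    rw [hUi, not_not] at hi
    omega
  have hcU : ∀ i, i ∉ U → c i = 0 := by
    intro i hi
    rw [hUi, not_not] at hi
    omega
  have hsumle : ∀ e : Fin n → ℕ, ((∑ i, e i : ℕ) : ℝ) ≤ av t ^ δ → ∑ i ∈ U, e i ≤ N := fun e he =>
    (Finset.sum_le_sum_of_subset (Finset.subset_univ U)).trans (hle _ he)
  have hx' : x = β * ∏ i ∈ U, (F i).eval t ^ b i := by rw [hx, hprod b hbU]
  have hy' : y = γ * ∏ i ∈ U, (F i).eval t ^ c i := by rw [hy, hprod c hcU]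
  have hne : y ≠ x := by
    rintro rfl
    exact ha0 (by linear_combination hxy)
  have hs1 : av (-1) ≤ 1 := by rw [av_neg, av_one]
  have hlow : ∀ z : GaussianInt, z ≠ 0 →
      av z ≤ (2 * H + 1) * (N * H) ^ Pool.Agent.Q103.SD.JJ (K + 1) 2 →
      1 ≤ 1 * ‖GaussianInt.toComplex z‖ := by
    intro z hz _
    rw [one_mul]
    exact one_le_av hz
  have hprodq : ∏ i ∈ U, ‖GaussianInt.toComplex ((F i).eval t)‖ = ∏ i ∈ U, av (q i) :=
    Finset.prod_congr rfl fun i _ => by rw [hqF]; rfl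
  have d1 := gen_drop av_size hs1 (σ := GaussianInt.toComplex) (fun z => le_rfl) hD hH1 hlc
    (fun i => av_unit (hlc i)) (fun i j => hH ▸ hco i j) U (fun i _ => hdeg i) hU b c
    (N := N) (by omega) (by omega) (hsumle b hb) (hsumle c hc) hβ0 (hH ▸ hβ) (hH ▸ hγ) le_rfl
    le_rfl hlow (t := t) (by rw [mul_one]; exact h1) (by rw [← hx', ← hy']; exact hne)
  have d2 := gen_drop av_size hs1 (σ := GaussianInt.toComplex) (fun z => le_rfl) hD hH1 hlc
    (fun i => av_unit (hlc i)) (fun i j => hH ▸ hco i j) U (fun i _ => hdeg i) hU c b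
    (N := N) (by omega) (by omega) (hsumle c hc) (hsumle b hb) hγ0 (hH ▸ hγ) (hH ▸ hβ) le_rfl
    le_rfl hlow (t := t) (by rw [mul_one]; exact h1) (by rw [← hx', ← hy']; exact hne.symm)
  rw [← hx', ← hy', hprodq, one_pow, mul_one] at d1 d2
  have ea : y - x = a := by linear_combination -hxy
  have ea' : x - y = -a := by rw [← ea]; ring
  rw [ea] at d1
  rw [ea'] at d2
  obtain ⟨z, hz⟩ : ∃ z, z = ∏ i ∈ U, av (q i) := ⟨_, rfl⟩
  have hz0 : 0 ≤ z := by
    rw [hz]
    exact Finset.prod_nonneg fun i _ => norm_nonneg _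
  rw [← hz] at d1 d2 ⊢
  have ha : 0 ≤ av a := norm_nonneg _
  have d1' : av x * av t ≤ av t ^ ε * (av a * z) := by
    calc av x * av t ≤ 8 * ((2 * H + 1) * (N * H) ^ Pool.Agent.Q103.SD.JJ (K + 1) 2) * av a * z :=
          d1
      _ = 8 * ((2 * H + 1) * (N * H) ^ Pool.Agent.Q103.SD.JJ (K + 1) 2) * (av a * z) := by ring
      _ ≤ _ := mul_le_mul_of_nonneg_right h2 (by positivity)
  have d2' : av y * av t ≤ av t ^ ε * (av a * z) := by
    have d3 : av y * av t ≤
        8 * ((2 * H + 1) * (N * H) ^ Pool.Agent.Q103.SD.JJ (K + 1) 2) * av (-a) * z := d2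
    rw [av_neg] at d3
    calc av y * av t ≤ 8 * ((2 * H + 1) * (N * H) ^ Pool.Agent.Q103.SD.JJ (K + 1) 2) * av a * z :=
          d3
      _ = 8 * ((2 * H + 1) * (N * H) ^ Pool.Agent.Q103.SD.JJ (K + 1) 2) * (av a * z) := by ring
      _ ≤ _ := mul_le_mul_of_nonneg_right h2 (by positivity)
  have main : max (av x) (av y) * av t ^ (1 - ε) ≤ av a * z := by
    rw [Real.rpow_sub ht0, Real.rpow_one, ← mul_div_assoc, div_le_iff₀ (by positivity),
      mul_comm (av a * z)]
    rcases max_choice (av x) (av y) with h | h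
    · rw [h]
      exact d1'
    · rw [h]
      exact d2'
  refine ⟨main, ?_⟩
  rintro S ⟨hS1, hS2, -⟩ hsq
  -- `a ∏ q_i` divides the product of the primes
  have hdvd : a * ∏ i ∈ U, q i ∣ ∏ Q ∈ S, Q := by
    refine squarefree_dvd _ _ hsq fun p hp hpd => ?_
    have hpm : p ∣ x * a * y := by
      rcases hp.dvd_or_dvd hpd with h | h
      · exact (h.mul_left x).mul_right y
      · obtain ⟨i, hi, hpi⟩ := (Prime.dvd_finsetProd_iff hp _).mp h
        have h3 := (hUi i).mp hi
        rcases Nat.eq_zero_or_pos (b i) with h4 | h4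
        · have h5 : 0 < c i := by omega
          refine Dvd.dvd.mul_left ?_ (x * a)
          rw [hy]
          refine Dvd.dvd.mul_left ?_ γ
          exact (hpi.trans (dvd_pow_self _ (by omega))).trans
            (Finset.dvd_prod_of_mem (fun i => q i ^ c i) (Finset.mem_univ i))
        · rw [mul_assoc]
          refine Dvd.dvd.mul_right ?_ (a * y)
          rw [hx]
          refine Dvd.dvd.mul_left ?_ β
          exact (hpi.trans (dvd_pow_self _ (by omega))).trans
            (Finset.dvd_prod_of_mem (fun i => q i ^ b i) (Finset.mem_univ i))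
    obtain ⟨R, hR, hass⟩ := hS2 p hp hpm
    exact hass.dvd.trans (Finset.dvd_prod_of_mem (fun Q => Q) hR)
  obtain ⟨w, hw⟩ := hdvd
  have hSne : ∏ Q ∈ S, Q ≠ 0 := Finset.prod_ne_zero_iff.mpr fun Q hQ => (hS1 Q hQ).1.ne_zero
  have hw0 : w ≠ 0 := by
    rintro rfl
    rw [mul_zero] at hw
    exact hSne hw
  have hle2 : av a * z ≤ ∏ Q ∈ S, av Q := by
    rw [← av_prod, hw, av_mul, av_mul, av_prod, ← hz]
    exact le_mul_of_one_le_right (by positivity) (one_le_av hw0)
  have hrp : 0 ≤ av t ^ (1 - ε) := by positivity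
  have hmax : max (av x) (max (av a) (av y)) ≤ 2 * max (av x) (av y) := by
    have h3 : av a ≤ av x + av y := by
      rw [← ea, sub_eq_add_neg]
      have := av_size.add y (-x)
      rw [av_neg] at this
      linarith
    have h4 : av x ≤ max (av x) (av y) := le_max_left _ _
    have h5 : av y ≤ max (av x) (av y) := le_max_right _ _
    have h6 : 0 ≤ av x := norm_nonneg _
    have h7 : 0 ≤ av y := norm_nonneg _
    refine max_le (by linarith) (max_le (by linarith) (by linarith))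
  calc max (av x) (max (av a) (av y)) * av t ^ (1 - ε) ≤
        2 * max (av x) (av y) * av t ^ (1 - ε) := mul_le_mul_of_nonneg_right hmax hrp
    _ = 2 * (max (av x) (av y) * av t ^ (1 - ε)) := by ring
    _ ≤ 2 * ∏ Q ∈ S, av Q := by linarith

/-- **Main theorem**, and the example of discs. -/
theorem result :
    (∀ δ : ℝ, 0 ≤ δ → ∀ t : GaussianInt, 1 ≤ av t → ∀ (n : ℕ) (q : Fin n → GaussianInt),
      (∀ i, av (q i - t) ≤ av t ^ δ) → Near n δ t q) ∧
    ∀ (K : ℕ) (ε : ℝ), 0 < ε → ∃ δ : ℝ, 0 < δ ∧ ∃ T₀ : ℝ, 1 ≤ T₀ ∧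
    ∀ t : GaussianInt, T₀ ≤ av t → ∀ (n : ℕ) (q : Fin n → GaussianInt), Near K δ t q →
    ∀ (b c : Fin n → ℕ), ((∑ i, b i : ℕ) : ℝ) ≤ av t ^ δ → ((∑ i, c i : ℕ) : ℝ) ≤ av t ^ δ →
    ∀ U : Finset (Fin n), U.Nonempty → (∀ i, i ∈ U ↔ b i + c i ≠ 0) →
    ∀ β γ : GaussianInt, β ≠ 0 → γ ≠ 0 → av β ≤ av t ^ δ → av γ ≤ av t ^ δ →
    ∀ x y a : GaussianInt, x = β * ∏ i, q i ^ b i → y = γ * ∏ i, q i ^ c i → x + a = y → a ≠ 0 →
      max (av x) (av y) * av t ^ (1 - ε) ≤ av a * ∏ i ∈ U, av (q i) ∧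
      ∀ S : Finset GaussianInt, PrimeDivisors (x * a * y) S → Squarefree (a * ∏ i ∈ U, q i) →
        max (av x) (max (av a) (av y)) * av t ^ (1 - ε) ≤ 2 * ∏ Q ∈ S, av Q :=
  ⟨near_disc, main_theorem⟩

end Pool.Agent.Results.MP_dc323a_nt.SmallDiscs
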